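import Pool.Agent.H78R2.Mont.Gen

/-!
Weyl's inequality gains the factor `N^(-1/p)` in `L^p`, `p ≥ 4`, with respect to the linear
coefficient `ξ`. Hence Montgomery's conjecture on Weyl sums (exponent `1/k`) holds in `L^p` over
`ξ`, `1/p = 1/k - 1/2^(k-1)` (so `p = 12` for `k = 3`, `p = 8` for `k = 4`), uniformly in all
other coefficients, the approximation `a/q` and the length `N`.
-/

set_option autoImplicit false

namespace Pool.Agent.Results.MP_3b0be2_nt.LpLinear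

open Pool.Agent.H78R2.Mont

noncomputable section

/-- The exponent `p_k`, `1/p_k = 1/k - 1/2^(k-1)`. -/
def pk (k : ℕ) : ℝ := 1 / (1 / (k : ℝ) - 1 / (2 : ℝ) ^ (k - 1))

/-- The Weyl sum `∑_{n ≤ N} e(f(n) + ξ n)`; for `f = t X^k` the sum of the problem. -/
def S (f : Polynomial ℝ) (N : ℕ) (ξ : ℝ) : ℂ :=
  ∑ n ∈ Finset.Icc 1 N, Complex.exp (2 * (Real.pi : ℂ) * Complex.I *
    (((f.eval (n : ℝ) + ξ * (n : ℝ)) : ℝ) : ℂ))

theorem result :
    (∀ (k N : ℕ) (t ξ : ℝ), S (Polynomial.C t * Polynomial.X ^ k) N ξ =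
      ∑ n ∈ Finset.Icc 1 N, Complex.exp (2 * (Real.pi : ℂ) * Complex.I *
        (((t * (n : ℝ) ^ k + ξ * (n : ℝ)) : ℝ) : ℂ))) ∧
    pk 3 = 12 ∧ pk 4 = 8 ∧ (∀ k : ℕ, 3 ≤ k → (k : ℝ) < pk k) ∧
    ∀ k : ℕ, 3 ≤ k → ∀ ε : ℝ, 0 < ε → ∃ C : ℝ, 0 < C ∧
      ∀ N : ℕ, 1 ≤ N → ∀ f : Polynomial ℝ, f.natDegree ≤ k → ∀ a q : ℕ,
        1 ≤ a → a < q → q ≤ N → Nat.Coprime a q →
        |f.coeff k - (a : ℝ) / (q : ℝ)| ≤ 1 / (q : ℝ) ^ 2 →
        (∀ p : ℝ, 4 ≤ p → (∫ ξ in (0 : ℝ)..1, ‖S f N ξ‖ ^ p) ^ (1 / p)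
            ≤ C * (N : ℝ) ^ (1 - 1 / p + ε) *
              (1 / (q : ℝ) + 1 / (N : ℝ)) ^ (1 / (2 : ℝ) ^ (k - 1))) ∧
        (∫ ξ in (0 : ℝ)..1, ‖S f N ξ‖ ^ pk k) ^ (1 / pk k)
            ≤ C * (N : ℝ) ^ (1 + ε) *
              (1 / (q : ℝ) + 1 / (N : ℝ) + (q : ℝ) / (N : ℝ) ^ k) ^ (1 / (k : ℝ)) := by
  have hpos : ∀ k : ℕ, 3 ≤ k → 1 / (2 : ℝ) ^ (k - 1) < 1 / (k : ℝ) := by
    intro k hk
    apply one_div_lt_one_div_of_lt
    · have : 0 < k := by omega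
      exact_mod_cast this
    · obtain ⟨j, rfl⟩ : ∃ j, k = j + 3 := ⟨k - 3, by omega⟩
      have h1 : j + 3 < 2 ^ (j + 2) := by
        have : j + 1 ≤ 2 ^ j := Nat.lt_two_pow_self
        rw [pow_add]
        omega
      have h2 : j + 3 - 1 = j + 2 := by omega
      rw [h2]
      exact_mod_cast h1
  refine ⟨?_, by unfold pk; norm_num, by unfold pk; norm_num, ?_, ?_⟩
  · intro k N t ξ
    unfold S
    apply Finset.sum_congr rfl
    intro n _
    simp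
  · intro k hk
    have h1 := hpos k hk
    have hk0 : (0 : ℝ) < k := by
      have : 0 < k := by omega
      exact_mod_cast this
    unfold pk
    rw [lt_div_iff₀ (by linarith)]
    have h2 : (0 : ℝ) < 1 / (2 : ℝ) ^ (k - 1) := by positivity
    have h3 : (k : ℝ) * (1 / (k : ℝ)) = 1 := by field_simp
    nlinarith
  · intro k hk ε hε
    obtain ⟨j, rfl⟩ : ∃ j, k = j + 3 := ⟨k - 3, by omega⟩
    have hS : ∀ (f : Polynomial ℝ) (N : ℕ) (ξ : ℝ), S f N ξ = SS f N ξ := fun f N ξ =>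
      SS_eq f N ξ
    have hk1 : j + 3 - 1 = j + 2 := by omega
    have hgap := hpos (j + 3) hk
    rw [hk1] at hgap
    have hp : 1 / pk (j + 3) = 1 / ((j + 3 : ℕ) : ℝ) - 1 / (2 : ℝ) ^ (j + 2) := by
      unfold pk
      rw [one_div_one_div, hk1]
    have hp0 : 0 < pk (j + 3) := by
      unfold pk
      apply one_div_pos.2
      rw [hk1]
      linarith
    obtain ⟨C1, hC1, h1⟩ := lp j ε hε (pk (j + 3)) hp
    obtain ⟨C2, hC2, h2⟩ := lpg j ε hε
    refine ⟨max C1 C2, lt_of_lt_of_le (by linarith) (le_max_left _ _), ?_⟩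
    intro N hN f hf a q ha haq hqN hc ht
    have hN0 : (0 : ℝ) < N := by exact_mod_cast hN
    have hq0 : (0 : ℝ) < q := by
      have : 0 < q := by omega
      exact_mod_cast this
    have hroot : ∀ (p X : ℝ), 0 < p → 0 ≤ X →
        (∫ ξ in (0 : ℝ)..1, ‖SS f N ξ‖ ^ p) ≤ X ^ p →
        (∫ ξ in (0 : ℝ)..1, ‖SS f N ξ‖ ^ p) ^ (1 / p) ≤ X := by
      intro p X hp hX h3
      have h4 : 0 ≤ ∫ ξ in (0 : ℝ)..1, ‖SS f N ξ‖ ^ p := by
        apply intervalIntegral.integral_nonneg (by norm_num)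
        intro ξ _
        positivity
      have h5 := Real.rpow_le_rpow h4 h3 (show 0 ≤ 1 / p by positivity)
      refine h5.trans ?_
      rw [← Real.rpow_mul hX, mul_one_div_cancel hp.ne', Real.rpow_one]
    simp only [hS]
    constructor
    · intro p hp4
      refine (hroot p _ (by linarith) (by positivity)
        (h2 N hN f hf a q (by omega) hqN hc ht p hp4)).trans ?_
      rw [hk1]
      have h6 : C2 ≤ max C1 C2 := le_max_right _ _
      gcongr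
    · refine (hroot (pk (j + 3)) _ hp0 (by positivity)
        (h1 N hN f hf a q (by omega) hqN hc ht)).trans ?_
      have h6 : C1 ≤ max C1 C2 := le_max_left _ _
      gcongr

end

end Pool.Agent.Results.MP_3b0be2_nt.LpLinear
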